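import Pool.Agent.Helper51.RL.F
import Pool.Agent.Helper11.RL.Defs2

/-!
# Project RL+, block F': `∑_{N/K < p ≤ N} Q(N/p) ≥ c N` for `K = N^(1/(60 h))`
-/

set_option autoImplicit false

namespace Pool.Agent.Helper11.RL

open Finset Pool.Agent.Helper5.RM

/-- block F' -/
theorem nt' (h : ℕ) (hh : 1 ≤ h) : ∃ c : ℝ, 0 < c ∧ ∃ N0 : ℕ, ∀ N : ℕ, N0 ≤ N →
    4 * c * N ≤ ∑ p ∈ P1 N (KK' h N), (Qf (N / p) : ℝ) := by
  obtain ⟨Y, hY1, hY⟩ := blocks
  have hh1 : (1:ℝ) ≤ h := by exact_mod_cast hh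
  have hh0 : (0:ℝ) < h := by linarith
  have e1 : ∀ᶠ N : ℕ in Filter.atTop, (4:ℝ) ^ (480 * h : ℕ) ≤ (N : ℝ) ∧ Y ≤ (N : ℝ) ^ (1 / 2 : ℝ) := by
    have t1 : Filter.Tendsto (fun N : ℕ => (N : ℝ)) Filter.atTop Filter.atTop := tendsto_natCast_atTop_atTop
    exact (t1.eventually_ge_atTop _).and (((tendsto_rpow_atTop (by norm_num)).comp t1).eventually_ge_atTop _)
  obtain ⟨N0, hN0⟩ := Filter.eventually_atTop.1 e1
  refine ⟨1 / (61440 * h), by positivity, N0, fun N hN => ?_⟩
  obtain ⟨hN1, hN2⟩ := hN0 N hN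
  have hNpos : (0:ℝ) < N := lt_of_lt_of_le (by positivity) hN1
  have hN1' : (1:ℝ) ≤ N := le_trans (one_le_pow₀ (by norm_num)) hN1
  have hl4 : Real.log ((4:ℝ) ^ (480 * h : ℕ)) = 480 * h * Real.log 4 := by rw [Real.log_pow]; push_cast; ring
  have hl40 : 0 < Real.log 4 := Real.log_pos (by norm_num)
  have hlN : 480 * h * Real.log 4 ≤ Real.log N := by
    rw [← hl4]; exact Real.log_le_log (by positivity) hN1
  have hlN0 : 0 < Real.log N := lt_of_lt_of_le (by positivity) hlN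
  set R := ⌊Real.log N / (120 * h * Real.log 4)⌋₊ with hR
  have hRx : 4 ≤ Real.log N / (120 * h * Real.log 4) := by
    rw [le_div_iff₀ (by positivity)]; linarith
  have hR1 : (R : ℝ) ≤ Real.log N / (120 * h * Real.log 4) := Nat.floor_le (by positivity)
  have hR2 : Real.log N / (240 * h * Real.log 4) ≤ R := by
    have := Nat.lt_floor_add_one (Real.log N / (120 * h * Real.log 4))
    have h3 : Real.log N / (240 * h * Real.log 4) = Real.log N / (120 * h * Real.log 4) / 2 := by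
      field_simp; ring
    rw [h3]
    linarith
  have h4R : (4:ℝ) ^ R ≤ (N : ℝ) ^ (1 / (120 * h) : ℝ) := by
    rw [← Real.rpow_natCast, ← Real.log_le_log_iff (by positivity) (by positivity), Real.log_rpow (by norm_num),
      Real.log_rpow hNpos]
    calc (R : ℝ) * Real.log 4 ≤ Real.log N / (120 * h * Real.log 4) * Real.log 4 :=
          mul_le_mul_of_nonneg_right hR1 hl40.le
      _ = 1 / (120 * h) * Real.log N := by field_simp
  have hK : (N : ℝ) ^ (1 / (120 * h) : ℝ) ≤ KK' h N := by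
    have h1 : (N : ℝ) ^ (1 / (60 * h) : ℝ) = (N : ℝ) ^ (1 / (120 * h) : ℝ) * (N : ℝ) ^ (1 / (120 * h) : ℝ) := by
      rw [← Real.rpow_add hNpos]
      congr 1
      field_simp
      norm_num
    have h2 : (2:ℝ) ≤ (N : ℝ) ^ (1 / (120 * h) : ℝ) := by
      have h3 : ((4:ℝ) ^ (480 * h : ℕ)) ^ (1 / (120 * h) : ℝ) ≤ (N : ℝ) ^ (1 / (120 * h) : ℝ) :=
        Real.rpow_le_rpow (by positivity) hN1 (by positivity)
      have h4 : ((4:ℝ) ^ (480 * h : ℕ)) ^ (1 / (120 * h) : ℝ) = 256 := by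
        rw [← Real.rpow_natCast, ← Real.rpow_mul (by norm_num)]
        have : (((480 * h : ℕ) : ℝ)) * (1 / (120 * h)) = 4 := by
          push_cast
          field_simp
          norm_num
        rw [this]
        norm_num
      linarith
    have h5 := Nat.lt_floor_add_one ((N : ℝ) ^ (1 / (60 * h) : ℝ))
    rw [KK']
    nlinarith
  have hYR : Y * 4 ^ R ≤ N := by
    have h1 : (1 / (120 * h) : ℝ) ≤ 1 / 2 := by
      apply one_div_le_one_div_of_le (by norm_num)
      linarith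
    calc Y * 4 ^ R ≤ (N : ℝ) ^ (1 / 2 : ℝ) * (N : ℝ) ^ (1 / (120 * h) : ℝ) :=
          mul_le_mul hN2 h4R (by positivity) (by positivity)
      _ = (N : ℝ) ^ (1 / 2 + 1 / (120 * h) : ℝ) := by rw [← Real.rpow_add hNpos]
      _ ≤ (N : ℝ) ^ (1 : ℝ) := Real.rpow_le_rpow_of_exponent_le hN1' (by linarith)
      _ = N := Real.rpow_one _
  have hb := hY N R hYR
  have hsub : (PP N).filter (fun p : ℕ => (N : ℝ) / 4 ^ R < p) ⊆ P1 N (KK' h N) := by
    intro p hp
    rw [P1, mem_filter]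
    rw [mem_filter] at hp
    refine ⟨hp.1, ?_⟩
    have h1 := hp.2
    rw [div_lt_iff₀ (by positivity)] at h1
    have h2 : (p : ℝ) * 4 ^ R ≤ KK' h N * p := by
      have := mul_le_mul_of_nonneg_left (h4R.trans hK) (Nat.cast_nonneg p : (0:ℝ) ≤ p)
      linarith
    exact_mod_cast h1.trans_le h2
  have hlow : ∀ p ∈ P1 N (KK' h N), (N : ℝ) / (8 * Real.log N) * (Real.log p / p) ≤ Qf (N / p) := by
    intro p hp
    rw [P1, mem_filter, PP, mem_filter, mem_Icc] at hp
    have hp1 : 1 ≤ p := hp.1.1.1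
    have hpN : p ≤ N := hp.1.1.2
    have hp0 : (0:ℝ) < p := by exact_mod_cast hp1
    have h1 := Qf_ge (N / p)
    have h2 : (N : ℝ) / p / 2 ≤ (N / p : ℕ) := by
      have h3 : 1 ≤ N / p := Nat.div_pos hpN (by omega)
      have h4 : N < p * (N / p + 1) := Nat.lt_mul_div_succ N (by omega)
      have h5 : (N : ℝ) < p * ((N / p : ℕ) + 1) := by exact_mod_cast h4
      have h6 : (1:ℝ) ≤ (N / p : ℕ) := by exact_mod_cast h3
      rw [div_div, div_le_iff₀ (by positivity)]
      nlinarith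
    have h3 : Real.log p ≤ Real.log N := Real.log_le_log hp0 (by exact_mod_cast hpN)
    have h4 : (N : ℝ) / (8 * Real.log N) * (Real.log p / p) ≤ (N : ℝ) / p / 8 := by
      have h5 : (N : ℝ) / (8 * Real.log N) * (Real.log p / p) = (N : ℝ) / p / 8 * (Real.log p / Real.log N) := by
        field_simp
      rw [h5]
      have h6 : Real.log p / Real.log N ≤ 1 := (div_le_one hlN0).2 h3
      have h7 : 0 ≤ (N : ℝ) / p / 8 := by positivity
      nlinarith
    linarith
  have hnn : ∀ p ∈ P1 N (KK' h N), 0 ≤ Real.log p / p := fun p _ =>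
    div_nonneg (Real.log_natCast_nonneg p) (Nat.cast_nonneg p)
  have hl4b : Real.log 4 ≤ 2 := by
    have := Real.log_two_lt_d9
    have h5 : Real.log 4 = 2 * Real.log 2 := by
      rw [show (4:ℝ) = 2 ^ 2 by norm_num, Real.log_pow]; norm_num
    linarith
  calc 4 * (1 / (61440 * h)) * (N : ℝ) ≤ (N : ℝ) / (8 * Real.log N) * ((R : ℝ) / 4) := by
        have h1 : Real.log N / (480 * h) ≤ R := by
          refine le_trans ?_ hR2
          apply div_le_div_of_nonneg_left hlN0.le (by positivity)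
          nlinarith
        have h2 : (N : ℝ) / (8 * Real.log N) * (Real.log N / (480 * h) / 4) = 4 * (1 / (61440 * h)) * N := by
          field_simp
          ring
        rw [← h2]
        apply mul_le_mul_of_nonneg_left _ (by positivity)
        linarith
    _ ≤ (N : ℝ) / (8 * Real.log N) * ∑ p ∈ (PP N).filter (fun p : ℕ => (N : ℝ) / 4 ^ R < p), Real.log p / p :=
        mul_le_mul_of_nonneg_left hb (by positivity)
    _ ≤ (N : ℝ) / (8 * Real.log N) * ∑ p ∈ P1 N (KK' h N), Real.log p / p :=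
        mul_le_mul_of_nonneg_left (sum_le_sum_of_subset_of_nonneg hsub fun p hp _ => hnn p hp) (by positivity)
    _ = ∑ p ∈ P1 N (KK' h N), (N : ℝ) / (8 * Real.log N) * (Real.log p / p) := by rw [mul_sum]
    _ ≤ ∑ p ∈ P1 N (KK' h N), (Qf (N / p) : ℝ) := sum_le_sum hlow

end Pool.Agent.Helper11.RL
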