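import Pool.Agent.Helper11.RL.Defs

/-!
# Project RL, block F: `∑_{N/K < p ≤ N} Q(N/p) ≥ c N`
-/

set_option autoImplicit false

namespace Pool.Agent.Helper11.RL

open Finset Pool.Agent.Helper5.RM

/-- at least a quarter of the integers up to `y` are squarefree -/
lemma Qf_ge (y : ℕ) : (y : ℝ) / 4 ≤ Qf y := by
  classical
  have h1 : Qf y + ((Icc 1 y).filter (fun m => ¬ Squarefree m)).card = y := by
    rw [Qf, Finset.card_filter_add_card_filter_not]; simp
  have h2 : (((Icc 1 y).filter (fun m => ¬ Squarefree m)).card : ℝ) ≤ ∑ d ∈ Icc 2 y, (y : ℝ) / d ^ 2 := by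
    have hs : (Icc 1 y).filter (fun m => ¬ Squarefree m) ⊆
        (Icc 2 y).biUnion (fun d => (Ioc 0 y).filter (fun m => d ^ 2 ∣ m)) := by
      intro m hm
      rw [mem_filter, mem_Icc] at hm
      obtain ⟨⟨h1, h2⟩, h3⟩ := hm
      rw [Squarefree] at h3
      push Not at h3
      obtain ⟨d, hd, hu⟩ := h3
      have hd0 : d ≠ 0 := by
        rintro rfl
        simp at hd
        omega
      have hd1 : d ≠ 1 := by
        rintro rfl
        exact hu isUnit_one
      have hdm : d * d ≤ m := Nat.le_of_dvd (by omega) hd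
      rw [mem_biUnion]
      refine ⟨d, ?_, ?_⟩
      · rw [mem_Icc]
        refine ⟨by omega, ?_⟩
        nlinarith
      · rw [mem_filter, mem_Ioc]
        exact ⟨⟨by omega, h2⟩, by rw [sq]; exact hd⟩
    have hc : (((Icc 1 y).filter (fun m => ¬ Squarefree m)).card : ℝ) ≤
        ∑ d ∈ Icc 2 y, (((Ioc 0 y).filter (fun m => d ^ 2 ∣ m)).card : ℝ) := by
      exact_mod_cast (card_le_card hs).trans card_biUnion_le
    refine hc.trans (sum_le_sum fun d _ => ?_)
    rw [Nat.Ioc_filter_dvd_card_eq_div]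
    have := @Nat.cast_div_le ℝ _ _ _ y (d ^ 2)
    push_cast at this
    exact this
  have h3 : ∑ d ∈ Icc 2 y, (y : ℝ) / d ^ 2 ≤ 3 / 4 * y := by
    rcases lt_or_ge y 2 with hy | hy
    · rw [Finset.Icc_eq_empty (by omega)]
      simp
    have h4 : ∑ d ∈ Icc 2 y, (y : ℝ) / d ^ 2 = y * (1 / 4 + ∑ d ∈ Ioc 2 y, ((d : ℝ) ^ 2)⁻¹) := by
      rw [← Finset.Ioc_insert_left hy, Finset.sum_insert (by simp), mul_add, mul_sum]
      congr 1
      norm_num
      ring
    rw [h4]
    have h5 := @sum_Ioc_inv_sq_le_sub ℝ _ _ _ 2 y (by norm_num) hy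
    have h6 : (0 : ℝ) ≤ (y : ℝ)⁻¹ := by positivity
    have h7 : (1 : ℝ) / 4 + ∑ d ∈ Ioc 2 y, ((d : ℝ) ^ 2)⁻¹ ≤ 3 / 4 := by
      push_cast at h5
      linarith
    have h8 := mul_le_mul_of_nonneg_left h7 (Nat.cast_nonneg y : (0:ℝ) ≤ y)
    linarith
  have h4 : (Qf y : ℝ) + ((Icc 1 y).filter (fun m => ¬ Squarefree m)).card = y := by exact_mod_cast h1
  linarith

/-- Chebyshev: a lower bound for the primes in `(y, 4y]` -/
lemma theta_block : ∃ Y : ℝ, 1 ≤ Y ∧ ∀ y : ℝ, Y ≤ y → y ≤ Chebyshev.theta (4 * y) - Chebyshev.theta y := by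
  have e1 : ∀ᶠ y : ℝ in Filter.atTop, Real.log (4 * y + 2) ≤ 0.01 * y := by
    have h := (Real.isLittleO_log_id_atTop.comp_tendsto
      (Filter.tendsto_atTop_add_const_right Filter.atTop (2:ℝ) (Filter.tendsto_id.const_mul_atTop (show (0:ℝ) < 4 by norm_num)))).bound
      (show (0:ℝ) < 0.001 by norm_num)
    filter_upwards [h, Filter.eventually_ge_atTop (1:ℝ)] with y hy h1
    simp only [Function.comp, id] at hy
    rw [Real.norm_of_nonneg (Real.log_nonneg (by linarith)), Real.norm_of_nonneg (by linarith)] at hy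
    linarith
  have e2 : ∀ᶠ y : ℝ in Filter.atTop, 2 * Real.sqrt (4 * y) * Real.log (4 * y) ≤ 0.01 * y := by
    have h := ((isLittleO_log_rpow_atTop (show (0:ℝ) < 1/2 by norm_num)).comp_tendsto
      ((Filter.tendsto_id.const_mul_atTop (show (0:ℝ) < 4 by norm_num)))).bound
      (show (0:ℝ) < 0.001 by norm_num)
    filter_upwards [h, Filter.eventually_ge_atTop (1:ℝ)] with y hy h1
    simp only [Function.comp, id] at hy
    rw [Real.norm_of_nonneg (Real.log_nonneg (by linarith)), Real.norm_of_nonneg (by positivity), ← Real.sqrt_eq_rpow] at hy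
    have h2 : Real.sqrt (4 * y) * Real.sqrt (4 * y) = 4 * y := Real.mul_self_sqrt (by linarith)
    have h3 := mul_le_mul_of_nonneg_left hy (Real.sqrt_nonneg (4 * y))
    nlinarith
  obtain ⟨Y, hY⟩ := Filter.eventually_atTop.1 (e1.and e2)
  refine ⟨max Y 100, le_max_of_le_right (by norm_num), fun y hy => ?_⟩
  have hY1 := le_of_max_le_left hy
  have hY2 := le_of_max_le_right hy
  obtain ⟨h1, h2⟩ := hY y hY1
  have h3 := Chebyshev.theta_ge' (x := 4 * y) (by linarith)
  have h4 := Chebyshev.theta_le_log4_mul_x (x := y) (by linarith)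
  have h5 : Real.log 4 = 2 * Real.log 2 := by
    rw [show (4:ℝ) = 2 ^ 2 by norm_num, Real.log_pow]; norm_num
  rw [h5] at h4
  have h6 := Real.log_two_gt_d9
  nlinarith

lemma theta_sub {N : ℕ} {a b : ℝ} (ha : 0 ≤ a) (hab : a ≤ b) (hb : b ≤ N) :
    ∑ p ∈ (PP N).filter (fun p : ℕ => a < p ∧ (p : ℝ) ≤ b), Real.log p = Chebyshev.theta b - Chebyshev.theta a := by
  rw [Chebyshev.theta, Chebyshev.theta, eq_sub_iff_add_eq, ← Finset.sum_union]
  · congr 1
    ext p
    simp only [PP, mem_union, mem_filter, mem_Icc, mem_Ioc]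
    have k1 : p ≤ ⌊a⌋₊ ↔ (p : ℝ) ≤ a := Nat.le_floor_iff ha
    have k2 : p ≤ ⌊b⌋₊ ↔ (p : ℝ) ≤ b := Nat.le_floor_iff (ha.trans hab)
    rw [k1, k2]
    constructor
    · rintro (⟨⟨⟨h1, h2⟩, h3⟩, h4, h5⟩ | ⟨⟨h1, h2⟩, h3⟩)
      · exact ⟨⟨by omega, h5⟩, h3⟩
      · exact ⟨⟨h1, h2.trans hab⟩, h3⟩
    · rintro ⟨⟨h1, h2⟩, h3⟩
      rcases le_or_gt (p : ℝ) a with h | h
      · exact Or.inr ⟨⟨h1, h⟩, h3⟩
      · refine Or.inl ⟨⟨⟨by omega, ?_⟩, h3⟩, h, h2⟩
        exact_mod_cast h2.trans hb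
  · rw [Finset.disjoint_left]
    intro p h1 h2
    simp only [PP, mem_filter, mem_Icc, mem_Ioc] at h1 h2
    have k1 : (p : ℝ) ≤ a := (Nat.le_floor_iff ha).1 h2.1.2
    linarith [h1.2.1]

/-- one more block adds `1/4` -/
lemma blocks : ∃ Y : ℝ, 1 ≤ Y ∧ ∀ (N R : ℕ), Y * 4 ^ R ≤ N →
    (R : ℝ) / 4 ≤ ∑ p ∈ (PP N).filter (fun p : ℕ => (N : ℝ) / 4 ^ R < p), Real.log p / p := by
  obtain ⟨Y, hY1, hY⟩ := theta_block
  refine ⟨Y, hY1, fun N R => ?_⟩
  induction R with
  | zero =>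
    intro _
    simp only [Nat.cast_zero, zero_div]
    exact sum_nonneg fun p _ => div_nonneg (Real.log_natCast_nonneg p) (Nat.cast_nonneg p)
  | succ R ih =>
    intro h
    have h4 : (0:ℝ) < 4 ^ R := by positivity
    have hN : Y * 4 ^ R ≤ N := by
      rw [pow_succ] at h
      nlinarith [mul_pos (lt_of_lt_of_le one_pos hY1) h4]
    have hN0 : (0:ℝ) < N := lt_of_lt_of_le (mul_pos (lt_of_lt_of_le one_pos hY1) h4) hN
    have h1 := ih hN
    set b := (N : ℝ) / 4 ^ R with hb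
    have hb0 : 0 < b := by positivity
    have ha : (N : ℝ) / 4 ^ (R + 1) = b / 4 := by
      rw [hb, pow_succ]
      field_simp
    rw [ha]
    have hsplit : ∑ p ∈ (PP N).filter (fun p : ℕ => b / 4 < (p : ℝ)), Real.log p / p =
        ∑ p ∈ (PP N).filter (fun p : ℕ => b < (p : ℝ)), Real.log p / p +
        ∑ p ∈ (PP N).filter (fun p : ℕ => b / 4 < p ∧ (p : ℝ) ≤ b), Real.log p / p := by
      rw [← Finset.sum_union]
      · congr 1
        ext p
        simp only [mem_union, mem_filter]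
        constructor
        · rintro ⟨h1, h2⟩
          rcases le_or_gt (p : ℝ) b with h | h
          · exact Or.inr ⟨h1, h2, h⟩
          · exact Or.inl ⟨h1, h⟩
        · rintro (⟨h1, h2⟩ | ⟨h1, h2, h3⟩)
          · exact ⟨h1, by linarith⟩
          · exact ⟨h1, h2⟩
      · rw [Finset.disjoint_left]
        intro p h1 h2
        simp only [mem_filter] at h1 h2
        linarith [h1.2, h2.2.2]
    have hblk : 1 / 4 ≤ ∑ p ∈ (PP N).filter (fun p : ℕ => b / 4 < p ∧ (p : ℝ) ≤ b), Real.log p / p := by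
      have h5 : ∑ p ∈ (PP N).filter (fun p : ℕ => b / 4 < p ∧ (p : ℝ) ≤ b), Real.log p / b ≤
          ∑ p ∈ (PP N).filter (fun p : ℕ => b / 4 < p ∧ (p : ℝ) ≤ b), Real.log p / p := by
        refine sum_le_sum fun p hp => ?_
        rw [mem_filter] at hp
        have hp0 : (0:ℝ) < p := lt_of_lt_of_le (by positivity) hp.2.1.le
        exact div_le_div_of_nonneg_left (Real.log_natCast_nonneg p) hp0 hp.2.2
      refine le_trans ?_ h5
      rw [← Finset.sum_div, theta_sub (N := N) (by positivity) (by linarith)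
        (by rw [hb]; exact div_le_self hN0.le (one_le_pow₀ (by norm_num)))]
      have h6 : Y ≤ b / 4 := by
        rw [← ha, le_div_iff₀ (by positivity)]
        exact h
      have h7 := hY (b / 4) h6
      rw [show 4 * (b / 4) = b by ring] at h7
      rw [le_div_iff₀ hb0]
      linarith
    rw [hsplit]
    push_cast
    linarith

/-- block F -/
theorem nt : ∃ c : ℝ, 0 < c ∧ ∃ N0 : ℕ, ∀ N : ℕ, N0 ≤ N →
    4 * c * N ≤ ∑ p ∈ P1 N (KK N), (Qf (N / p) : ℝ) := by
  obtain ⟨Y, hY1, hY⟩ := blocks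
  -- large N: `KK N ≥ N^(1/60)/2`, `log K ≥ log N / 120`
  have e1 : ∀ᶠ N : ℕ in Filter.atTop, (4:ℝ) ^ (480:ℕ) ≤ (N : ℝ) ∧ Y ≤ (N : ℝ) ^ (1 / 2 : ℝ) := by
    have t1 : Filter.Tendsto (fun N : ℕ => (N : ℝ)) Filter.atTop Filter.atTop := tendsto_natCast_atTop_atTop
    exact (t1.eventually_ge_atTop _).and (((tendsto_rpow_atTop (by norm_num)).comp t1).eventually_ge_atTop _)
  obtain ⟨N0, hN0⟩ := Filter.eventually_atTop.1 e1
  refine ⟨1 / 61440, by norm_num, N0, fun N hN => ?_⟩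
  obtain ⟨hN1, hN2⟩ := hN0 N hN
  have hNpos : (0:ℝ) < N := lt_of_lt_of_le (by positivity) hN1
  have hN1' : (1:ℝ) ≤ N := le_trans (one_le_pow₀ (by norm_num)) hN1
  have hl4 : Real.log ((4:ℝ) ^ (480:ℕ)) = 480 * Real.log 4 := by rw [Real.log_pow]; norm_num
  have hl40 : 0 < Real.log 4 := Real.log_pos (by norm_num)
  have hlN : 480 * Real.log 4 ≤ Real.log N := by
    rw [← hl4]; exact Real.log_le_log (by positivity) hN1
  have hlN0 : 0 < Real.log N := by linarith
  -- R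
  set R := ⌊Real.log N / (120 * Real.log 4)⌋₊ with hR
  have hRx : 4 ≤ Real.log N / (120 * Real.log 4) := by
    rw [le_div_iff₀ (by positivity)]; linarith
  have hR1 : (R : ℝ) ≤ Real.log N / (120 * Real.log 4) := Nat.floor_le (by positivity)
  have hR2 : Real.log N / (240 * Real.log 4) ≤ R := by
    have := Nat.lt_floor_add_one (Real.log N / (120 * Real.log 4))
    have h3 : Real.log N / (240 * Real.log 4) = Real.log N / (120 * Real.log 4) / 2 := by
      field_simp; ring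
    rw [h3]
    linarith
  have h4R : (4:ℝ) ^ R ≤ (N : ℝ) ^ (1 / 120 : ℝ) := by
    rw [← Real.rpow_natCast, ← Real.log_le_log_iff (by positivity) (by positivity), Real.log_rpow (by norm_num),
      Real.log_rpow hNpos]
    calc (R : ℝ) * Real.log 4 ≤ Real.log N / (120 * Real.log 4) * Real.log 4 :=
          mul_le_mul_of_nonneg_right hR1 hl40.le
      _ = 1 / 120 * Real.log N := by field_simp
  -- K
  have hK : (N : ℝ) ^ (1 / 120 : ℝ) ≤ KK N := by
    have h1 : (N : ℝ) ^ (1 / 60 : ℝ) = (N : ℝ) ^ (1 / 120 : ℝ) * (N : ℝ) ^ (1 / 120 : ℝ) := by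
      rw [← Real.rpow_add hNpos]; norm_num
    have h2 : (2:ℝ) ≤ (N : ℝ) ^ (1 / 120 : ℝ) := by
      have h3 : ((4:ℝ) ^ (480:ℕ)) ^ (1 / 120 : ℝ) ≤ (N : ℝ) ^ (1 / 120 : ℝ) :=
        Real.rpow_le_rpow (by positivity) hN1 (by norm_num)
      have h4 : ((4:ℝ) ^ (480:ℕ)) ^ (1 / 120 : ℝ) = 256 := by
        rw [← Real.rpow_natCast, ← Real.rpow_mul (by norm_num)]
        norm_num
      linarith
    have h5 := Nat.lt_floor_add_one ((N : ℝ) ^ (1 / 60 : ℝ))
    rw [KK]
    nlinarith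
  -- the blocks
  have hYR : Y * 4 ^ R ≤ N := by
    calc Y * 4 ^ R ≤ (N : ℝ) ^ (1 / 2 : ℝ) * (N : ℝ) ^ (1 / 120 : ℝ) :=
          mul_le_mul hN2 h4R (by positivity) (by positivity)
      _ = (N : ℝ) ^ (1 / 2 + 1 / 120 : ℝ) := by rw [← Real.rpow_add hNpos]
      _ ≤ (N : ℝ) ^ (1 : ℝ) := Real.rpow_le_rpow_of_exponent_le hN1' (by norm_num)
      _ = N := Real.rpow_one _
  have hb := hY N R hYR
  -- P1
  have hsub : (PP N).filter (fun p : ℕ => (N : ℝ) / 4 ^ R < p) ⊆ P1 N (KK N) := by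
    intro p hp
    rw [P1, mem_filter]
    rw [mem_filter] at hp
    refine ⟨hp.1, ?_⟩
    have h1 := hp.2
    rw [div_lt_iff₀ (by positivity)] at h1
    have h2 : (p : ℝ) * 4 ^ R ≤ KK N * p := by
      have := mul_le_mul_of_nonneg_left (h4R.trans hK) (Nat.cast_nonneg p : (0:ℝ) ≤ p)
      linarith
    exact_mod_cast h1.trans_le h2
  have hlow : ∀ p ∈ P1 N (KK N), (N : ℝ) / (8 * Real.log N) * (Real.log p / p) ≤ Qf (N / p) := by
    intro p hp
    rw [P1, mem_filter, PP, mem_filter, mem_Icc] at hp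
    have hp1 : 1 ≤ p := hp.1.1.1
    have hpN : p ≤ N := hp.1.1.2
    have hp0 : (0:ℝ) < p := by exact_mod_cast hp1
    have h1 := Qf_ge (N / p)
    have h2 : (N : ℝ) / p / 2 ≤ (N / p : ℕ) := by
      have h3 : 1 ≤ N / p := Nat.div_pos hpN (by omega)
      have h4 : N < p * (N / p + 1) := Nat.lt_mul_div_succ N (by omega)
      have h5 : (N : ℝ) < p * ((N / p : ℕ) + 1) := by exact_mod_cast h4
      have h6 : (1:ℝ) ≤ (N / p : ℕ) := by exact_mod_cast h3
      rw [div_div, div_le_iff₀ (by positivity)]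
      nlinarith
    have h3 : Real.log p ≤ Real.log N := Real.log_le_log hp0 (by exact_mod_cast hpN)
    have h4 : (N : ℝ) / (8 * Real.log N) * (Real.log p / p) ≤ (N : ℝ) / p / 8 := by
      have h5 : (N : ℝ) / (8 * Real.log N) * (Real.log p / p) = (N : ℝ) / p / 8 * (Real.log p / Real.log N) := by
        field_simp
      rw [h5]
      have h6 : Real.log p / Real.log N ≤ 1 := (div_le_one hlN0).2 h3
      have h7 : 0 ≤ (N : ℝ) / p / 8 := by positivity
      nlinarith
    linarith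
  have hnn : ∀ p ∈ P1 N (KK N), 0 ≤ Real.log p / p := fun p _ =>
    div_nonneg (Real.log_natCast_nonneg p) (Nat.cast_nonneg p)
  have hl4b : Real.log 4 ≤ 2 := by
    have := Real.log_two_lt_d9
    have h5 : Real.log 4 = 2 * Real.log 2 := by
      rw [show (4:ℝ) = 2 ^ 2 by norm_num, Real.log_pow]; norm_num
    linarith
  calc 4 * (1 / 61440) * (N : ℝ) ≤ (N : ℝ) / (8 * Real.log N) * ((R : ℝ) / 4) := by
        have h1 : Real.log N / 480 ≤ R := by
          refine le_trans ?_ hR2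
          apply div_le_div_of_nonneg_left hlN0.le (by positivity)
          linarith
        have h2 : (N : ℝ) / (8 * Real.log N) * (Real.log N / 480 / 4) = 4 * (1 / 61440) * N := by
          field_simp
          ring
        have h3 : (N : ℝ) / (8 * Real.log N) * (Real.log N / 480 / 4) ≤ (N : ℝ) / (8 * Real.log N) * ((R : ℝ) / 4) := by
          apply mul_le_mul_of_nonneg_left _ (by positivity)
          linarith
        nlinarith
    _ ≤ (N : ℝ) / (8 * Real.log N) * ∑ p ∈ (PP N).filter (fun p : ℕ => (N : ℝ) / 4 ^ R < p), Real.log p / p :=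
        mul_le_mul_of_nonneg_left hb (by positivity)
    _ ≤ (N : ℝ) / (8 * Real.log N) * ∑ p ∈ P1 N (KK N), Real.log p / p :=
        mul_le_mul_of_nonneg_left (sum_le_sum_of_subset_of_nonneg hsub fun p hp _ => hnn p hp) (by positivity)
    _ = ∑ p ∈ P1 N (KK N), (N : ℝ) / (8 * Real.log N) * (Real.log p / p) := by rw [mul_sum]
    _ ≤ ∑ p ∈ P1 N (KK N), (Qf (N / p) : ℝ) := sum_le_sum hlow

end Pool.Agent.Helper11.RL
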